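import Mathlib
import Pool.Graph.R_seed8.R469.Eseq
import Pool.Graph.R_seed8.H319R2.Rigid

set_option autoImplicit false

/-!
# A summability criterion for the `Ω`-divergence of E-sequences

Let `β = H(log 2 / log 3) = 0.9499...` (binary entropy).  A non-periodic E-sequence `(a_n)` such that
`∑ (2 ^ (b_n) / 3 ^ n) ^ s = ∞` for some `s > β` is `Ω`-divergent.  The question is the case in which
infinitely many terms of this series are larger than one.
-/

namespace Pool.Agent.Results.MP_eea90e_nt.SummableDefect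

open Finset Filter Topology

/-- The next odd term: `3x+1` divided by the highest power of `2` dividing it. So `x_n = S^[n] x`. -/
def S (x : ℕ) : ℕ := (3 * x + 1) / 2 ^ padicValNat 2 (3 * x + 1)

/-- The E-sequence of `x`: `eSequence x n` is the exponent `a_(n+1)` of `2` in `3 x_n + 1`. -/
def eSequence (x n : ℕ) : ℕ := padicValNat 2 (3 * S^[n] x + 1)

/-- An E-sequence is a sequence of positive integers; `a n` stands for `a_(n+1)`. -/
def IsESequence (a : ℕ → ℕ) : Prop := ∀ n, 1 ≤ a n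

/-- `a` is (eventually) periodic. -/
def Periodic (a : ℕ → ℕ) : Prop := ∃ l r : ℕ, 1 ≤ r ∧ ∀ n, l ≤ n → a (n + r) = a n

/-- `a` is the E-sequence of no odd positive integer. -/
def OmegaDivergent (a : ℕ → ℕ) : Prop := ∀ x : ℕ, Odd x → eSequence x ≠ a

/-- `b_n = a_1 + ... + a_n` -/
def b (a : ℕ → ℕ) (n : ℕ) : ℕ := ∑ i ∈ range n, a i

/-- `β`, the binary entropy (in bits) of `log 2 / log 3` -/
noncomputable def β : ℝ := Real.binEntropy (Real.log 2 / Real.log 3) / Real.log 2

open Pool.Agent.R469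

/-- the orbit of the odd terms is injective if the E-sequence is not periodic -/
lemma inj_of_nonperiodic {x : ℕ} (h : ¬ Periodic (eSequence x)) : Function.Injective fun n => S^[n] x := by
  have key : ∀ i j : ℕ, i < j → S^[i] x ≠ S^[j] x := by
    intro i j hij he
    refine h ⟨i, j - i, by omega, fun n hn => ?_⟩
    have h1 : S^[n + (j - i)] x = S^[n] x := by
      have h2 : n + (j - i) = (n - i) + j := by omega
      have h3 : n = (n - i) + i := by omega
      rw [h2, Function.iterate_add_apply, ← he, ← Function.iterate_add_apply, ← h3]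
    show padicValNat 2 (3 * S^[n + (j - i)] x + 1) = padicValNat 2 (3 * S^[n] x + 1)
    rw [h1]
  intro i j he
  rcases lt_trichotomy i j with h1 | h1 | h1
  · exact absurd he (key i j h1)
  · exact h1
  · exact absurd he.symm (key j i h1)

/-- every term of the accelerated trajectory is a power of two times an odd term -/
lemma iter_form {x : ℕ} (hx : x % 2 = 1) (j : ℕ) : ∃ c i : ℕ, Rig.T^[j] x = 2 ^ c * S^[i] x := by
  induction j with
  | zero => exact ⟨0, 0, by simp⟩
  | succ j ih =>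
    obtain ⟨c, i, h⟩ := ih
    rw [Function.iterate_succ_apply', h]
    rcases Nat.eq_zero_or_pos c with hc | hc
    · subst hc
      have hz : S^[i] x % 2 = 1 := Eseq.S_iter_odd hx i
      obtain ⟨h1, h2, h3⟩ := Eseq.step_odd hz
      obtain ⟨a, ha⟩ : ∃ a, padicValNat 2 (3 * S^[i] x + 1) = a + 1 :=
        ⟨padicValNat 2 (3 * S^[i] x + 1) - 1, by omega⟩
      refine ⟨a, i + 1, ?_⟩
      rw [ha] at h3
      have h4 := Rig.T_odd hz
      rw [pow_zero, one_mul, Function.iterate_succ_apply']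
      have h5 : 2 * Rig.T (S^[i] x) = 2 * (2 ^ a * S (S^[i] x)) := by
        rw [h4, ← h3, pow_succ]
        show 2 ^ a * 2 * Eseq.S (S^[i] x) = 2 * (2 ^ a * S (S^[i] x))
        have : Eseq.S (S^[i] x) = S (S^[i] x) := rfl
        rw [this]; ring
      omega
    · obtain ⟨d, rfl⟩ : ∃ d, c = d + 1 := ⟨c - 1, by omega⟩
      refine ⟨d, i, ?_⟩
      have h5 : 2 ^ (d + 1) * S^[i] x = 2 * (2 ^ d * S^[i] x) := by ring
      have h6 := Rig.T_even (n := 2 ^ (d + 1) * S^[i] x) (by omega)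
      omega

/-- rigidity for the odd terms -/
lemma odd_rigid (η : ℝ) (hη : β < η) (hη1 : η < 1) : ∃ C : ℝ, 0 < C ∧ ∀ x : ℕ, x % 2 = 1 →
    (Function.Injective fun n => S^[n] x) → ∀ N : ℝ, 1 ≤ N → (∀ i, N ≤ (S^[i] x : ℕ)) → ∀ n : ℕ,
      (3 : ℝ) ^ n * x ≤ 2 ^ (b (eSequence x) n) * (S^[n] x : ℕ) ∧
      (2 : ℝ) ^ (b (eSequence x) n) * (S^[n] x : ℕ) ≤ Real.exp (C * N ^ (η - 1)) * (3 ^ n * x) := by
  obtain ⟨C, hC0, hC⟩ := Pool.Agent.H319R2.rigid η hη hη1
  refine ⟨C, hC0, ?_⟩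
  intro x hx hinj N hN hmin n
  have hx1 : 1 ≤ x := by omega
  have hinjT := Eseq.inj_T hx hinj
  have hl := Eseq.link hx n
  have hbb : Eseq.b x n = b (eSequence x) n := rfl
  have hSS : Eseq.S^[n] x = S^[n] x := rfl
  rw [hbb, hSS] at hl
  constructor
  · have h1 := Rig.pow_mul_le (b (eSequence x) n) x
    rw [hl.1, hl.2] at h1
    exact_mod_cast h1
  · have h := hC (x : ℤ) (b (eSequence x) n) (by exact_mod_cast (by omega : x ≠ 0)) (by
      intro i hi j hj hij
      simp only [Rig.T_cast] at hij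
      exact hinjT (by exact_mod_cast hij)) N hN (by
      intro j hj
      rw [Rig.T_cast]
      obtain ⟨c, i, hci⟩ := iter_form hx j
      have h2 := hmin i
      rw [Int.cast_natCast, abs_of_nonneg (by positivity), hci]
      have h3 : S^[i] x ≤ 2 ^ c * S^[i] x := Nat.le_mul_of_pos_left _ (by positivity)
      have h4 : ((S^[i] x : ℕ) : ℝ) ≤ ((2 ^ c * S^[i] x : ℕ) : ℝ) := by exact_mod_cast h3
      linarith)
    rw [Rig.T_cast, Rig.od_cast, hl.1, hl.2] at h
    have hp : (0 : ℝ) < (S^[n] x : ℕ) := by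
      have : 1 ≤ S^[n] x := by have := Eseq.S_iter_odd hx n; change S^[n] x % 2 = 1 at this; omega
      exact_mod_cast this
    have hx0 : (0 : ℝ) < x := by exact_mod_cast hx1
    rw [Int.cast_natCast, abs_of_nonneg hp.le, Int.cast_natCast, abs_of_nonneg hx0.le] at h
    have h2 := (abs_le.1 h).2
    have h3 : Real.log ((2 : ℝ) ^ (b (eSequence x) n) * (S^[n] x : ℕ)) ≤
        Real.log (Real.exp (C * N ^ (η - 1)) * (3 ^ n * x)) := by
      rw [Real.log_mul (by positivity) hp.ne', Real.log_pow, Real.log_mul (Real.exp_pos _).ne' (by positivity),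
        Real.log_exp, Real.log_mul (by positivity) hx0.ne', Real.log_pow]
      linarith
    exact (Real.log_le_log_iff (by positivity) (by positivity)).1 h3

/-- few small odd terms -/
lemma odd_few (η : ℝ) (hη : β < η) : ∃ C : ℝ, 0 < C ∧ ∀ x : ℕ, x % 2 = 1 →
    (Function.Injective fun n => S^[n] x) → ∀ X : ℝ, 1 ≤ X → ∀ F : Finset ℕ,
      (∀ n ∈ F, ((S^[n] x : ℕ) : ℝ) ≤ X) → (F.card : ℝ) ≤ C * X ^ η := by
  obtain ⟨C, hC0, hC⟩ := Pool.Agent.H319R2.orbit_sparse η hη
  refine ⟨C, hC0, ?_⟩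
  intro x hx hinj X hX F hF
  have h := hC (x : ℤ) X hX (F.image fun n => ((S^[n] x : ℕ) : ℤ)) (by
    intro y hy
    rw [mem_image] at hy
    obtain ⟨n, hn, rfl⟩ := hy
    refine ⟨⟨Eseq.b x n, ?_⟩, ?_⟩
    · rw [Rig.T_cast, (Eseq.link hx n).1]; rfl
    · rw [Int.cast_natCast, abs_of_nonneg (by positivity)]
      exact hF n hn)
  rw [card_image_of_injective] at h
  · exact h
  · intro i j hij
    have hij' : ((S^[i] x : ℕ) : ℤ) = ((S^[j] x : ℕ) : ℤ) := hij
    have : S^[i] x = S^[j] x := by exact_mod_cast hij'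
    exact hinj this

/-- the sum of `x_n ^ (-s)` is bounded by an absolute constant -/
lemma odd_recip (s : ℝ) (hs : β < s) : ∃ C : ℝ, 0 < C ∧ ∀ x : ℕ, x % 2 = 1 →
    (Function.Injective fun n => S^[n] x) → ∀ F : Finset ℕ,
      ∑ n ∈ F, ((S^[n] x : ℕ) : ℝ) ^ (-s) ≤ C := by
  obtain ⟨η, hη, hηs⟩ := exists_between hs
  have hβ0 : 0 < β := by
    unfold β
    refine div_pos (Real.binEntropy_pos ?_ ?_) (Real.log_pos (by norm_num))
    · exact div_pos (Real.log_pos (by norm_num)) (Real.log_pos (by norm_num))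
    · rw [div_lt_one (Real.log_pos (by norm_num))]
      exact Real.log_lt_log (by norm_num) (by norm_num)
  have hs0 : 0 < s := hβ0.trans hs
  obtain ⟨C, hC0, hC⟩ := odd_few η hη
  set r : ℝ := (2 : ℝ) ^ (η - s) with hr
  have hr0 : 0 < r := by positivity
  have hr1 : r < 1 := Real.rpow_lt_one_of_one_lt_of_neg (by norm_num) (by linarith)
  refine ⟨C * 2 ^ η * (1 - r)⁻¹, by have : 0 < 1 - r := by linarith
                                    positivity, ?_⟩
  intro x hx hinj F
  have hpos : ∀ n, 1 ≤ S^[n] x := by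
    intro n
    have := Eseq.S_iter_odd hx n
    change S^[n] x % 2 = 1 at this
    omega
  set κ : ℕ → ℕ := fun n => Nat.log 2 (S^[n] x) with hκ
  have h1 : ∀ n ∈ F, κ n ∈ F.image κ := fun n hn => mem_image_of_mem _ hn
  rw [← Finset.sum_fiberwise_of_maps_to h1]
  have h2 : ∀ k ∈ F.image κ, ∑ n ∈ F with κ n = k, ((S^[n] x : ℕ) : ℝ) ^ (-s) ≤ C * 2 ^ η * r ^ k := by
    intro k _
    have h3 : ∀ n ∈ F.filter (fun n => κ n = k), ((S^[n] x : ℕ) : ℝ) ^ (-s) ≤ ((2 : ℝ) ^ k) ^ (-s) := by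
      intro n hn
      have hk := (mem_filter.1 hn).2
      have h4 : 2 ^ k ≤ S^[n] x := by
        rw [← hk]; exact Nat.pow_log_le_self 2 (by have := hpos n; omega)
      have h5 : ((2 : ℝ) ^ k) ≤ ((S^[n] x : ℕ) : ℝ) := by exact_mod_cast h4
      exact Real.rpow_le_rpow_of_nonpos (by positivity) h5 (by linarith)
    have h6 := Finset.sum_le_card_nsmul _ _ _ h3
    rw [nsmul_eq_mul] at h6
    have h7 := hC x hx hinj ((2 : ℝ) ^ (k + 1)) (one_le_pow₀ (by norm_num)) (F.filter (fun n => κ n = k)) (by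
      intro n hn
      have hk := (mem_filter.1 hn).2
      have h4 : S^[n] x < 2 ^ (k + 1) := by
        rw [← hk]; exact Nat.lt_pow_succ_log_self (by norm_num) _
      exact_mod_cast h4.le)
    refine h6.trans ?_
    calc ((F.filter (fun n => κ n = k)).card : ℝ) * ((2 : ℝ) ^ k) ^ (-s)
        ≤ C * ((2 : ℝ) ^ (k + 1)) ^ η * ((2 : ℝ) ^ k) ^ (-s) := by gcongr
      _ = C * 2 ^ η * r ^ k := by
        rw [hr, ← Real.rpow_natCast, ← Real.rpow_natCast, ← Real.rpow_natCast, ← Real.rpow_mul (by norm_num),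
          ← Real.rpow_mul (by norm_num), ← Real.rpow_mul (by norm_num), mul_assoc, mul_assoc,
          ← Real.rpow_add (by norm_num), ← Real.rpow_add (by norm_num)]
        push_cast
        ring_nf
  refine (Finset.sum_le_sum h2).trans ?_
  rw [← Finset.mul_sum]
  refine mul_le_mul_of_nonneg_left ?_ (by positivity)
  rw [← tsum_geometric_of_lt_one hr0.le hr1]
  exact (summable_geometric_of_lt_one hr0.le hr1).sum_le_tsum _ (fun i _ => by positivity)

/-- **A summability criterion for `Ω`-divergence.**  Let `β = 0.9499...` be the binary entropy of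
`log 2 / log 3`.

(1) A non-periodic E-sequence with `∑ (2 ^ (b_n) / 3 ^ n) ^ s = ∞` for some `s > β` is `Ω`-divergent.
(2) In particular (the question) a non-periodic E-sequence with `b_n > n log_2 3` for infinitely many
`n` is `Ω`-divergent, and so is one with `b_n ≥ n log_2 3 - κ log_2 n - c` for all large `n`, if
`κ ≤ 1.05`.
(3) Uniform form: for every `s > β` there is an absolute constant `C` such that for every odd positive
integer `x` with a non-periodic E-sequence `∑ (2 ^ (b_n) / 3 ^ n) ^ s ≤ C x ^ s` (all finite partial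
sums), and for every real `g ≥ 0` at most `C (2 ^ g x) ^ s` of the numbers `n` satisfy
`b_n ≥ n log_2 3 - g`.
(4) Rigidity: for every `η > β`, `η < 1` there is an absolute constant `C` such that
`3 ^ (n - m) x_m ≤ 2 ^ (b_n - b_m) x_n ≤ exp (C N ^ (η - 1)) 3 ^ (n - m) x_m` for all `n ≥ m` if all the terms
`x_i`, `i ≥ m`, are at least `N ≥ 1`. -/
theorem result :
    β < 951 / 1000 ∧
    (∀ a : ℕ → ℕ, IsESequence a → ¬ Periodic a →
      (∃ s : ℝ, β < s ∧ ¬ Summable fun n : ℕ => ((2 : ℝ) ^ (b a n) / 3 ^ n) ^ s) → OmegaDivergent a) ∧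
    (∀ a : ℕ → ℕ, IsESequence a → ¬ Periodic a →
      (∃ᶠ n : ℕ in atTop, (n : ℝ) * Real.logb 2 3 < b a n) → OmegaDivergent a) ∧
    (∀ a : ℕ → ℕ, IsESequence a → ¬ Periodic a →
      (∃ κ c : ℝ, κ ≤ 21 / 20 ∧ ∀ᶠ n : ℕ in atTop,
        (n : ℝ) * Real.logb 2 3 - κ * Real.logb 2 n - c ≤ b a n) → OmegaDivergent a) ∧
    (∀ s : ℝ, β < s → ∃ C : ℝ, ∀ x : ℕ, Odd x → ¬ Periodic (eSequence x) →
      (∀ F : Finset ℕ, ∑ n ∈ F, ((2 : ℝ) ^ (b (eSequence x) n) / 3 ^ n) ^ s ≤ C * (x : ℝ) ^ s) ∧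
      (∀ g : ℝ, 0 ≤ g → ∀ F : Finset ℕ,
        (∀ n ∈ F, (n : ℝ) * Real.logb 2 3 - g ≤ b (eSequence x) n) →
          (F.card : ℝ) ≤ C * ((2 : ℝ) ^ g * x) ^ s)) ∧
    (∀ η : ℝ, β < η → η < 1 → ∃ C : ℝ, ∀ x : ℕ, Odd x → ¬ Periodic (eSequence x) →
      ∀ (N : ℝ) (m : ℕ), 1 ≤ N → (∀ i, m ≤ i → N ≤ (S^[i] x : ℕ)) → ∀ n : ℕ, m ≤ n →
        (3 : ℝ) ^ (n - m) * (S^[m] x : ℕ) ≤
          2 ^ (b (eSequence x) n - b (eSequence x) m) * (S^[n] x : ℕ) ∧
        (2 : ℝ) ^ (b (eSequence x) n - b (eSequence x) m) * (S^[n] x : ℕ) ≤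
          Real.exp (C * N ^ (η - 1)) * (3 ^ (n - m) * (S^[m] x : ℕ))) := by
  have l2 : 0 < Real.log 2 := Real.log_pos (by norm_num)
  have l3 : 0 < Real.log 3 := Real.log_pos (by norm_num)
  have hβ : β < 951 / 1000 := by
    have := Pool.Agent.H319R2.beta_lt
    norm_num at this ⊢
    exact this
  have hβ0 : 0 < β := by
    unfold β
    refine div_pos (Real.binEntropy_pos ?_ ?_) (Real.log_pos (by norm_num))
    · exact div_pos (Real.log_pos (by norm_num)) (Real.log_pos (by norm_num))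
    · rw [div_lt_one (Real.log_pos (by norm_num))]
      exact Real.log_lt_log (by norm_num) (by norm_num)
  -- `2 ^ (b_n) / 3 ^ n` and the difference
  have hratio : ∀ (a : ℕ → ℕ) (n : ℕ), (2 : ℝ) ^ (b a n) / 3 ^ n =
      (2 : ℝ) ^ ((b a n : ℝ) - n * Real.logb 2 3) := by
    intro a n
    rw [Real.rpow_sub (by norm_num), Real.rpow_natCast, mul_comm (n : ℝ), Real.rpow_mul (by norm_num),
      Real.rpow_logb (by norm_num) (by norm_num) (by norm_num), Real.rpow_natCast]
  -- the uniform statement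
  have unif : ∀ s : ℝ, β < s → ∃ C : ℝ, ∀ x : ℕ, Odd x → ¬ Periodic (eSequence x) →
      (∀ F : Finset ℕ, ∑ n ∈ F, ((2 : ℝ) ^ (b (eSequence x) n) / 3 ^ n) ^ s ≤ C * (x : ℝ) ^ s) ∧
      (∀ g : ℝ, 0 ≤ g → ∀ F : Finset ℕ,
        (∀ n ∈ F, (n : ℝ) * Real.logb 2 3 - g ≤ b (eSequence x) n) →
          (F.card : ℝ) ≤ C * ((2 : ℝ) ^ g * x) ^ s) := by
    intro s hs
    have hs0 : 0 < s := hβ0.trans hs
    obtain ⟨K, hK0, hK⟩ := odd_rigid (951 / 1000) hβ (by norm_num)
    obtain ⟨A, hA0, hA⟩ := odd_recip s hs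
    set E : ℝ := Real.exp (K * 1 ^ ((951 / 1000 : ℝ) - 1)) with hE
    have hE0 : 0 < E := Real.exp_pos _
    have hsum : ∀ x : ℕ, Odd x → ¬ Periodic (eSequence x) → ∀ F : Finset ℕ,
        ∑ n ∈ F, ((2 : ℝ) ^ (b (eSequence x) n) / 3 ^ n) ^ s ≤ E ^ s * A * (x : ℝ) ^ s := by
      intro x hodd hper F
      have hx : x % 2 = 1 := Nat.odd_iff.1 hodd
      have hinj := inj_of_nonperiodic hper
      have hpos : ∀ n, 1 ≤ S^[n] x := by
        intro n
        have := Eseq.S_iter_odd hx n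
        change S^[n] x % 2 = 1 at this
        omega
      have h1 : ∀ n ∈ F, ((2 : ℝ) ^ (b (eSequence x) n) / 3 ^ n) ^ s ≤
          E ^ s * (x : ℝ) ^ s * ((S^[n] x : ℕ) : ℝ) ^ (-s) := by
        intro n _
        have h2 := (hK x hx hinj 1 le_rfl (fun i => by exact_mod_cast hpos i) n).2
        have hp : (0 : ℝ) < (S^[n] x : ℕ) := by exact_mod_cast hpos n
        have h3 : (2 : ℝ) ^ (b (eSequence x) n) / 3 ^ n ≤ E * x * ((S^[n] x : ℕ) : ℝ)⁻¹ := by
          rw [div_le_iff₀ (by positivity), ← div_eq_mul_inv, div_mul_eq_mul_div, le_div_iff₀ hp]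
          calc (2 : ℝ) ^ (b (eSequence x) n) * (S^[n] x : ℕ) ≤ E * (3 ^ n * x) := h2
            _ = E * x * 3 ^ n := by ring
        calc ((2 : ℝ) ^ (b (eSequence x) n) / 3 ^ n) ^ s ≤ (E * x * ((S^[n] x : ℕ) : ℝ)⁻¹) ^ s :=
              Real.rpow_le_rpow (by positivity) h3 hs0.le
          _ = E ^ s * (x : ℝ) ^ s * ((S^[n] x : ℕ) : ℝ) ^ (-s) := by
            rw [Real.mul_rpow (by positivity) (by positivity), Real.mul_rpow (by positivity) (by positivity),
              Real.inv_rpow (by positivity), Real.rpow_neg (by positivity)]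
      refine (Finset.sum_le_sum h1).trans ?_
      rw [← Finset.mul_sum]
      calc E ^ s * (x : ℝ) ^ s * ∑ n ∈ F, ((S^[n] x : ℕ) : ℝ) ^ (-s) ≤ E ^ s * (x : ℝ) ^ s * A :=
            mul_le_mul_of_nonneg_left (hA x hx hinj F) (by positivity)
        _ = E ^ s * A * (x : ℝ) ^ s := by ring
    refine ⟨E ^ s * A, fun x hodd hper => ⟨hsum x hodd hper, ?_⟩⟩
    intro g hg F hF
    have h1 := hsum x hodd hper F
    have h2 : ∀ n ∈ F, ((2 : ℝ) ^ (-g)) ^ s ≤ ((2 : ℝ) ^ (b (eSequence x) n) / 3 ^ n) ^ s := by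
      intro n hn
      rw [hratio]
      refine Real.rpow_le_rpow (by positivity) ?_ hs0.le
      refine Real.rpow_le_rpow_of_exponent_le (by norm_num) ?_
      have := hF n hn
      linarith
    have h3 := Finset.card_nsmul_le_sum _ _ _ h2
    rw [nsmul_eq_mul] at h3
    have h4 : (F.card : ℝ) * ((2 : ℝ) ^ (-g)) ^ s ≤ E ^ s * A * (x : ℝ) ^ s := h3.trans h1
    have h5 : ((2 : ℝ) ^ (-g)) ^ s * ((2 : ℝ) ^ g) ^ s = 1 := by
      rw [← Real.mul_rpow (by positivity) (by positivity), ← Real.rpow_add (by norm_num)]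
      simp
    calc (F.card : ℝ) = (F.card : ℝ) * ((2 : ℝ) ^ (-g)) ^ s * ((2 : ℝ) ^ g) ^ s := by
          rw [mul_assoc, h5, mul_one]
      _ ≤ E ^ s * A * (x : ℝ) ^ s * ((2 : ℝ) ^ g) ^ s := by gcongr
      _ = E ^ s * A * ((2 : ℝ) ^ g * x) ^ s := by
        rw [Real.mul_rpow (by positivity) (by positivity)]; ring
  -- the criterion
  have crit : ∀ a : ℕ → ℕ, IsESequence a → ¬ Periodic a →
      (∃ s : ℝ, β < s ∧ ¬ Summable fun n : ℕ => ((2 : ℝ) ^ (b a n) / 3 ^ n) ^ s) → OmegaDivergent a := by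
    rintro a _ hper ⟨s, hs, hsum⟩ x hodd he
    subst he
    obtain ⟨C, hC⟩ := unif s hs
    exact hsum (summable_of_sum_le (fun n => by positivity) (hC x hodd hper).1)
  refine ⟨hβ, crit, ?_, ?_, unif, ?_⟩
  · intro a ha hper hfreq
    refine crit a ha hper ⟨1, by linarith, fun hsum => ?_⟩
    have h1 := hsum.tendsto_atTop_zero.eventually (gt_mem_nhds (show (0 : ℝ) < 1 by norm_num))
    obtain ⟨n, hn1, hn2⟩ := (hfreq.and_eventually h1).exists
    rw [hratio, Real.rpow_one] at hn2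
    have h2 : (1 : ℝ) ≤ (2 : ℝ) ^ ((b a n : ℝ) - n * Real.logb 2 3) :=
      Real.one_le_rpow (by norm_num) (by linarith)
    linarith
  · rintro a ha hper ⟨κ, c, hκ, hev⟩
    refine crit a ha hper ⟨20 / 21, by linarith, fun hsum => ?_⟩
    have hh : ¬ Summable fun n : ℕ => (2 : ℝ) ^ (-c * (20 / 21)) * (1 / (n : ℝ)) := by
      rw [summable_mul_left_iff (by positivity)]
      exact Real.not_summable_one_div_natCast
    refine hh (hsum.of_norm_bounded_eventually_nat ?_)
    filter_upwards [hev, eventually_ge_atTop 1] with n hn hn1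
    have hn0 : (1 : ℝ) ≤ n := by exact_mod_cast hn1
    rw [Real.norm_of_nonneg (by positivity), hratio, ← Real.rpow_mul (by norm_num)]
    have hlog : 0 ≤ Real.logb 2 n := Real.logb_nonneg (by norm_num) hn0
    have h1 : (1 : ℝ) / n = (2 : ℝ) ^ (-Real.logb 2 n) := by
      rw [Real.rpow_neg (by norm_num), Real.rpow_logb (by norm_num) (by norm_num) (by linarith), one_div]
    rw [h1, ← Real.rpow_add (by norm_num)]
    refine Real.rpow_le_rpow_of_exponent_le (by norm_num) ?_
    nlinarith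
  · intro η hη hη1
    obtain ⟨C, hC0, hC⟩ := odd_rigid η hη hη1
    refine ⟨C, ?_⟩
    intro x hodd hper N m hN hmin n hmn
    have hx : x % 2 = 1 := Nat.odd_iff.1 hodd
    have hinj := inj_of_nonperiodic hper
    have hxm : (S^[m] x) % 2 = 1 := Eseq.S_iter_odd hx m
    have hinj' : Function.Injective fun n => S^[n] (S^[m] x) := by
      intro i j hij
      simp only [← Function.iterate_add_apply] at hij
      have := hinj hij
      omega
    have h := hC (S^[m] x) hxm hinj' N hN (by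
      intro i
      rw [← Function.iterate_add_apply]
      exact hmin _ (by omega)) (n - m)
    have h1 : S^[n - m] (S^[m] x) = S^[n] x := by
      rw [← Function.iterate_add_apply]; congr 2; omega
    have h2 : b (eSequence (S^[m] x)) (n - m) = b (eSequence x) n - b (eSequence x) m := by
      have h3 : b (eSequence x) n = b (eSequence x) m + b (eSequence (S^[m] x)) (n - m) := by
        unfold b
        have h4 : ∑ i ∈ range n, eSequence x i =
            ∑ i ∈ range (m + (n - m)), eSequence x i := by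
          congr 2; omega
        rw [h4, Finset.sum_range_add]
        congr 1
        refine Finset.sum_congr rfl fun i _ => ?_
        unfold eSequence
        rw [← Function.iterate_add_apply, add_comm i m]
      omega
    rw [h1, h2] at h
    exact h

end Pool.Agent.Results.MP_eea90e_nt.SummableDefect
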